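import Pool.Agent.Q122.Harary.Final

set_option autoImplicit false

namespace Pool.Agent.Results.MP_916a8b_co.AlmostCompleteHarary

open Q122.Harary

/-- Q1 of MP_916a8b_co is false: there is a graph property `P` whose Harary polynomial is almost
complete for `𝔾(n, 1/2)`, i.e. the proportion of the labelled graphs on `n` vertices which are
determined (among all finite graphs) up to isomorphism by their Harary polynomial tends to one. -/
theorem result : ∃ P : GraphProperty, AlmostComplete P :=
  exists_almostComplete

end Pool.Agent.Results.MP_916a8b_co.AlmostCompleteHarary
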